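import Mathlib
import Pool.Agent.H68R2.BP.Props2
import Pool.Agent.H455R2.KZ.Ekap
import Pool.Agent.H495R2.KZ.WLim
import Pool.Agent.H35R2.KZ.Edensa
import Pool.Agent.H259R2.KZ.EDens

/-!
Task G_bic: the corner acting on a cyclic subspace is a von Neumann algebra.
-/

open scoped ComplexOrder InnerProductSpace ComplexConjugate Topology
open Finset Filter

noncomputable section

namespace H68R2.BP

open H759R2.Kad H744R2.KZ

namespace Gbicaux

section basic

variable {H : Type} [NormedAddCommGroup H] [InnerProductSpace ℂ H] [CompleteSpace H]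

theorem dg_add (k : ℕ) (x y : H →L[ℂ] H) : dg k (x + y) = dg k x + dg k y := by
  ext v i
  simp [dg_apply]

theorem dg_smul (k : ℕ) (c : ℂ) (x : H →L[ℂ] H) : dg k (c • x) = c • dg k x := by
  ext v i
  simp [dg_apply]

theorem dg_mul (k : ℕ) (x y : H →L[ℂ] H) : dg k (x * y) = dg k x * dg k y := by
  ext v i
  simp [dg_apply]

theorem dg_one (k : ℕ) : dg k (1 : H →L[ℂ] H) = 1 := by
  ext v i
  simp [dg_apply]

theorem inner_dg (k : ℕ) (x : H →L[ℂ] H) (u v : HH (Fin k) H) :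
    ⟪u, dg k x v⟫_ℂ = ∑ i, ⟪u i, x (v i)⟫_ℂ := by
  rw [PiLp.inner_apply]
  simp [dg_apply]

theorem dg_star (k : ℕ) (x : H →L[ℂ] H) : dg k (star x) = star (dg k x) := by
  refine (ContinuousLinearMap.eq_adjoint_iff _ _).2 ?_
  intro u v
  rw [inner_dg, PiLp.inner_apply]
  refine Finset.sum_congr rfl fun i _ => ?_
  rw [dg_apply, ContinuousLinearMap.star_eq_adjoint, ContinuousLinearMap.adjoint_inner_left]

/-- the linear map `x ↦ dg k x Ω` -/
def lin (k : ℕ) (Ω : HH (Fin k) H) : (H →L[ℂ] H) →ₗ[ℂ] HH (Fin k) H where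
  toFun x := dg k x Ω
  map_add' x y := by rw [dg_add]; rfl
  map_smul' c x := by rw [dg_smul]; rfl

/-- the corner as a submodule -/
def cSub (M : VonNeumannAlgebra H) (p : H →L[ℂ] H) : Submodule ℂ (H →L[ℂ] H) where
  carrier := Cnr M p
  zero_mem' := ⟨zero_mem M, by simp, by simp⟩
  add_mem' := by
    rintro a b ⟨ha, ha1, ha2⟩ ⟨hb, hb1, hb2⟩
    exact ⟨add_mem ha hb, by rw [mul_add, ha1, hb1], by rw [add_mul, ha2, hb2]⟩
  smul_mem' := by
    rintro c a ⟨ha, ha1, ha2⟩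
    exact ⟨M.toStarSubalgebra.smul_mem ha c, by rw [mul_smul_comm, ha1],
      by rw [smul_mul_assoc, ha2]⟩

theorem mul_mem_cnr {M : VonNeumannAlgebra H} {p a b : H →L[ℂ] H} (ha : a ∈ Cnr M p)
    (hb : b ∈ Cnr M p) : a * b ∈ Cnr M p :=
  ⟨mul_mem ha.1 hb.1, by rw [← mul_assoc, ha.2.1], by rw [mul_assoc, hb.2.2]⟩

theorem star_mem_cnr {M : VonNeumannAlgebra H} {p a : H →L[ℂ] H} (hp : IsPr p)
    (ha : a ∈ Cnr M p) : star a ∈ Cnr M p := by
  refine ⟨star_mem ha.1, ?_, ?_⟩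
  · have := congrArg star ha.2.2
    rwa [star_mul, hp.1] at this
  · have := congrArg star ha.2.1
    rwa [star_mul, hp.1] at this

theorem isClosed_M (M : VonNeumannAlgebra H) : IsClosed (M : Set (H →L[ℂ] H)) := by
  rw [← M.centralizer_centralizer]
  exact Set.isClosed_centralizer _

/-- the algebra of elements of `M` commuting with `p` -/
def BB (M : VonNeumannAlgebra H) (p : H →L[ℂ] H) (hp : IsPr p) :
    StarSubalgebra ℂ (H →L[ℂ] H) where
  carrier := {a | a ∈ M ∧ a * p = p * a}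
  mul_mem' := by
    rintro a b ⟨ha, ha1⟩ ⟨hb, hb1⟩
    exact ⟨mul_mem ha hb, by rw [mul_assoc, hb1, ← mul_assoc, ha1, mul_assoc]⟩
  add_mem' := by
    rintro a b ⟨ha, ha1⟩ ⟨hb, hb1⟩
    exact ⟨add_mem ha hb, by rw [add_mul, mul_add, ha1, hb1]⟩
  algebraMap_mem' c := ⟨M.toStarSubalgebra.algebraMap_mem c, Algebra.commutes c p⟩
  star_mem' := by
    rintro a ⟨ha, ha1⟩
    refine ⟨star_mem ha, ?_⟩
    have := congrArg star ha1
    rw [star_mul, star_mul, hp.1] at this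
    exact this.symm

theorem isClosed_BB (M : VonNeumannAlgebra H) (p : H →L[ℂ] H) (hp : IsPr p) :
    IsClosed (BB M p hp : Set (H →L[ℂ] H)) := by
  have h1 : (BB M p hp : Set (H →L[ℂ] H)) =
      (M : Set (H →L[ℂ] H)) ∩ {a | a * p = p * a} := rfl
  rw [h1]
  exact (isClosed_M M).inter (isClosed_eq (continuous_id.mul continuous_const)
    (continuous_const.mul continuous_id))

/-- the corner as a non-unital star subalgebra -/
def CC (M : VonNeumannAlgebra H) (p : H →L[ℂ] H) (hp : IsPr p) :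
    NonUnitalStarSubalgebra ℂ (H →L[ℂ] H) where
  carrier := Cnr M p
  zero_mem' := (cSub M p).zero_mem
  add_mem' := fun ha hb => (cSub M p).add_mem ha hb
  smul_mem' := fun c _ ha => (cSub M p).smul_mem c ha
  mul_mem' := fun ha hb => mul_mem_cnr ha hb
  star_mem' := fun ha => star_mem_cnr hp ha

theorem isClosed_CC (M : VonNeumannAlgebra H) (p : H →L[ℂ] H) (hp : IsPr p) :
    IsClosed (CC M p hp : Set (H →L[ℂ] H)) := by
  have h1 : (CC M p hp : Set (H →L[ℂ] H)) =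
      (M : Set (H →L[ℂ] H)) ∩ ({a | p * a = a} ∩ {a | a * p = a}) := rfl
  rw [h1]
  exact (isClosed_M M).inter ((isClosed_eq (continuous_const.mul continuous_id)
    continuous_id).inter (isClosed_eq (continuous_id.mul continuous_const) continuous_id))

/-- the cyclic subspace -/
def VV (M : VonNeumannAlgebra H) (p : H →L[ℂ] H) (k : ℕ) (Ω : HH (Fin k) H) :
    Submodule ℂ (HH (Fin k) H) := (cSub M p).map (lin k Ω)

/-- its closure -/
def LL (M : VonNeumannAlgebra H) (p : H →L[ℂ] H) (k : ℕ) (Ω : HH (Fin k) H) :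
    Submodule ℂ (HH (Fin k) H) := (VV M p k Ω).topologicalClosure

instance (M : VonNeumannAlgebra H) (p : H →L[ℂ] H) (k : ℕ) (Ω : HH (Fin k) H) :
    CompleteSpace (LL M p k Ω) :=
  (Submodule.isClosed_topologicalClosure _).completeSpace_coe

theorem mem_VV {M : VonNeumannAlgebra H} {p : H →L[ℂ] H} {k : ℕ} {Ω : HH (Fin k) H}
    {a : H →L[ℂ] H} (ha : a ∈ Cnr M p) : dg k a Ω ∈ VV M p k Ω :=
  Submodule.mem_map.2 ⟨a, ha, rfl⟩

theorem VV_le {M : VonNeumannAlgebra H} {p : H →L[ℂ] H} {k : ℕ} {Ω : HH (Fin k) H} :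
    VV M p k Ω ≤ LL M p k Ω := Submodule.le_topologicalClosure _

theorem invar {M : VonNeumannAlgebra H} {p : H →L[ℂ] H} {k : ℕ} {Ω : HH (Fin k) H}
    (hp : IsPr p) {a : H →L[ℂ] H} (ha : a ∈ BB M p hp) {x : HH (Fin k) H}
    (hx : x ∈ LL M p k Ω) : dg k a x ∈ LL M p k Ω := by
  have h1 : ∀ y ∈ VV M p k Ω, dg k a y ∈ VV M p k Ω := by
    intro y hy
    obtain ⟨b, hb, rfl⟩ := Submodule.mem_map.1 hy
    have h2 : dg k a (lin k Ω b) = dg k (a * b) Ω := by rw [dg_mul]; rfl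
    rw [h2]
    refine mem_VV ⟨mul_mem ha.1 hb.1, ?_, ?_⟩
    · rw [← mul_assoc, ← ha.2, mul_assoc, hb.2.1]
    · rw [mul_assoc, hb.2.2]
  have h3 : (LL M p k Ω : Set (HH (Fin k) H)) = closure (VV M p k Ω : Set (HH (Fin k) H)) :=
    Submodule.topologicalClosure_coe _
  have h4 : x ∈ closure (VV M p k Ω : Set (HH (Fin k) H)) := by rw [← h3]; exact hx
  have h5 := map_mem_closure (dg k a).continuous h4 (t := (VV M p k Ω : Set (HH (Fin k) H)))
    (fun y hy => h1 y hy)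
  rw [← h3] at h5
  exact h5

theorem dgp_LL {M : VonNeumannAlgebra H} {p : H →L[ℂ] H} {k : ℕ} {Ω : HH (Fin k) H}
    {x : HH (Fin k) H} (hx : x ∈ LL M p k Ω) : dg k p x = x := by
  have h1 : ∀ y ∈ VV M p k Ω, dg k p y = y := by
    intro y hy
    obtain ⟨b, hb, rfl⟩ := Submodule.mem_map.1 hy
    have h2 : dg k p (lin k Ω b) = dg k (p * b) Ω := by rw [dg_mul]; rfl
    rw [h2, hb.2.1]
    rfl
  have h3 : (LL M p k Ω : Set (HH (Fin k) H)) = closure (VV M p k Ω : Set (HH (Fin k) H)) :=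
    Submodule.topologicalClosure_coe _
  have h4 : x ∈ closure (VV M p k Ω : Set (HH (Fin k) H)) := by rw [← h3]; exact hx
  have h5 : IsClosed {y : HH (Fin k) H | dg k p y = y} :=
    isClosed_eq (dg k p).continuous continuous_id
  exact closure_minimal (fun y hy => h1 y hy) h5 h4

/-- the representation on the cyclic subspace -/
def lmap (M : VonNeumannAlgebra H) (p : H →L[ℂ] H) (k : ℕ) (Ω : HH (Fin k) H) :
    (H →L[ℂ] H) →ₗ[ℂ] (LL M p k Ω →L[ℂ] LL M p k Ω) where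
  toFun x := (LL M p k Ω).orthogonalProjectionOnto ∘L (dg k x ∘L (LL M p k Ω).subtypeL)
  map_add' x y := by
    rw [dg_add, ContinuousLinearMap.add_comp, ContinuousLinearMap.comp_add]
  map_smul' c x := by
    rw [dg_smul, ContinuousLinearMap.smul_comp, ContinuousLinearMap.comp_smul]
    rfl

theorem lmap_apply {M : VonNeumannAlgebra H} {p : H →L[ℂ] H} {k : ℕ} {Ω : HH (Fin k) H}
    (hp : IsPr p) {a : H →L[ℂ] H} (ha : a ∈ BB M p hp) (x : LL M p k Ω) :
    ((lmap M p k Ω a x : LL M p k Ω) : HH (Fin k) H) = dg k a x := by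
  have h1 : lmap M p k Ω a x = (LL M p k Ω).orthogonalProjectionOnto (dg k a x) := rfl
  rw [h1]
  exact Submodule.starProjection_eq_self_iff.2 (invar hp ha x.2)

theorem lmap_mul {M : VonNeumannAlgebra H} {p : H →L[ℂ] H} {k : ℕ} {Ω : HH (Fin k) H}
    (hp : IsPr p) {a b : H →L[ℂ] H} (ha : a ∈ BB M p hp) (hb : b ∈ BB M p hp) :
    lmap M p k Ω (a * b) = lmap M p k Ω a * lmap M p k Ω b := by
  ext1 x
  apply Subtype.ext
  rw [lmap_apply hp (mul_mem ha hb), mul_apply_eq_comp, lmap_apply hp ha,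
    lmap_apply hp hb, dg_mul]
  rfl

theorem lmap_one {M : VonNeumannAlgebra H} {p : H →L[ℂ] H} {k : ℕ} {Ω : HH (Fin k) H}
    (hp : IsPr p) : lmap M p k Ω 1 = 1 := by
  ext1 x
  apply Subtype.ext
  rw [lmap_apply hp (one_mem _), dg_one]
  rfl

theorem lmap_star {M : VonNeumannAlgebra H} {p : H →L[ℂ] H} {k : ℕ} {Ω : HH (Fin k) H}
    (hp : IsPr p) {a : H →L[ℂ] H} (ha : a ∈ BB M p hp) :
    lmap M p k Ω (star a) = star (lmap M p k Ω a) := by
  refine (ContinuousLinearMap.eq_adjoint_iff _ _).2 ?_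
  intro x y
  rw [Submodule.coe_inner, Submodule.coe_inner, lmap_apply hp (star_mem ha), lmap_apply hp ha,
    dg_star, ContinuousLinearMap.star_eq_adjoint, ContinuousLinearMap.adjoint_inner_left]

theorem cnr_BB {M : VonNeumannAlgebra H} {p : H →L[ℂ] H} (hp : IsPr p) {a : H →L[ℂ] H}
    (ha : a ∈ Cnr M p) : a ∈ BB M p hp := ⟨ha.1, by rw [ha.2.1, ha.2.2]⟩

theorem p_cnr {M : VonNeumannAlgebra H} {p : H →L[ℂ] H} (hpM : p ∈ M) (hp : IsPr p) :
    p ∈ Cnr M p := ⟨hpM, hp.2, hp.2⟩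

theorem lmap_p {M : VonNeumannAlgebra H} {p : H →L[ℂ] H} {k : ℕ} {Ω : HH (Fin k) H}
    (hpM : p ∈ M) (hp : IsPr p) : lmap M p k Ω p = 1 := by
  ext1 x
  apply Subtype.ext
  rw [lmap_apply hp (cnr_BB hp (p_cnr hpM hp)), dgp_LL x.2]
  rfl

/-- the representation of `BB` -/
def piB (M : VonNeumannAlgebra H) (p : H →L[ℂ] H) (hp : IsPr p) (k : ℕ) (Ω : HH (Fin k) H) :
    BB M p hp →⋆ₐ[ℂ] (LL M p k Ω →L[ℂ] LL M p k Ω) where
  toFun a := lmap M p k Ω a
  map_one' := lmap_one hp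
  map_mul' a b := lmap_mul hp a.2 b.2
  map_zero' := map_zero _
  map_add' a b := map_add _ _ _
  commutes' c := by
    have h1 : ((algebraMap ℂ (BB M p hp) c : BB M p hp) : H →L[ℂ] H) = c • 1 := by
      rw [Algebra.algebraMap_eq_smul_one]; rfl
    rw [h1, map_smul, lmap_one hp, Algebra.algebraMap_eq_smul_one]
  map_star' a := lmap_star hp a.2

/-- the representation of the corner -/
def phiC (M : VonNeumannAlgebra H) (p : H →L[ℂ] H) (hp : IsPr p) (k : ℕ) (Ω : HH (Fin k) H) :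
    CC M p hp →⋆ₙₐ[ℂ] (LL M p k Ω →L[ℂ] LL M p k Ω) where
  toFun a := lmap M p k Ω a
  map_smul' c a := map_smul _ _ _
  map_mul' a b := lmap_mul hp (cnr_BB hp a.2) (cnr_BB hp b.2)
  map_zero' := map_zero _
  map_add' a b := map_add _ _ _
  map_star' a := lmap_star hp (cnr_BB hp a.2)

theorem range_piB (M : VonNeumannAlgebra H) (p : H →L[ℂ] H) (hpM : p ∈ M) (hp : IsPr p) (k : ℕ)
    (Ω : HH (Fin k) H) (T : LL M p k Ω →L[ℂ] LL M p k Ω) :
    T ∈ (piB M p hp k Ω).range ↔ ∃ a ∈ Cnr M p, T = lmap M p k Ω a := by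
  constructor
  · rintro ⟨a, rfl⟩
    refine ⟨p * a, ⟨mul_mem hpM a.2.1, ?_, ?_⟩, ?_⟩
    · rw [← mul_assoc, hp.2]
    · rw [mul_assoc, a.2.2, ← mul_assoc, hp.2]
    · rw [lmap_mul hp (cnr_BB hp (p_cnr hpM hp)) a.2, lmap_p hpM hp, one_mul]
      rfl
  · rintro ⟨a, ha, rfl⟩
    exact ⟨⟨a, cnr_BB hp ha⟩, rfl⟩

theorem sa_mem (M : VonNeumannAlgebra H) (p : H →L[ℂ] H) (hp : IsPr p) (hpM : p ∈ M) (k : ℕ)
    (Ω : HH (Fin k) H) (T : LL M p k Ω →L[ℂ] LL M p k Ω) (hT : IsSelfAdjoint T)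
    (hTc : T ∈ Set.centralizer (Set.centralizer (Set.range (piB M p hp k Ω)))) :
    T ∈ Set.range (piB M p hp k Ω) := by
  classical
  have : IsClosed (BB M p hp : Set (H →L[ℂ] H)) := isClosed_BB M p hp
  have hkap := H744R2.KZ.prove_E_kap.{0} (prove_E_densa.{0} prove_E_dens.{0})
  have hk := hkap (BB M p hp) (LL M p k Ω) (piB M p hp k Ω) T hT hTc
  -- choice of approximants
  have hch : ∀ i : Finset (LL M p k Ω) × ℕ, ∃ a : BB M p hp, ‖a‖ ≤ ‖T‖ ∧
      ∀ x ∈ i.1, ‖(piB M p hp k Ω a - T) x‖ ≤ 1 / ((i.2 : ℝ) + 1) := by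
    rintro ⟨F, n⟩
    obtain ⟨a, _, ha2, ha3⟩ := hk F.card (fun j => (F.equivFin.symm j : LL M p k Ω))
      (1 / ((n : ℝ) + 1)) (by positivity)
    refine ⟨a, ha2, fun x hx => ?_⟩
    have := ha3 (F.equivFin ⟨x, hx⟩)
    simpa using this
  choose a ha1 ha2 using hch
  obtain ⟨𝒰, hU⟩ : ∃ 𝒰 : Ultrafilter (Finset (LL M p k Ω) × ℕ),
      (𝒰 : Filter (Finset (LL M p k Ω) × ℕ)) ≤ atTop :=
    ⟨Ultrafilter.of atTop, Ultrafilter.of_le atTop⟩
  obtain ⟨S, _, hS⟩ := prove_W_lim.{0} H (Finset (LL M p k Ω) × ℕ) 𝒰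
    (fun i => ((a i : BB M p hp) : H →L[ℂ] H)) ‖T‖ (fun i => ha1 i)
  have hconv : ∀ x : LL M p k Ω, Tendsto (fun i => piB M p hp k Ω (a i) x) 𝒰 (𝓝 (T x)) := by
    intro x
    refine Tendsto.mono_left ?_ hU
    rw [Metric.tendsto_atTop]
    intro ε hε
    obtain ⟨n, hn⟩ := exists_nat_one_div_lt hε
    refine ⟨({x}, n), fun i hi => ?_⟩
    have h1 : x ∈ i.1 := hi.1 (Finset.mem_singleton_self x)
    have h2 := ha2 i x h1
    rw [dist_eq_norm, ← ContinuousLinearMap.sub_apply]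
    refine (h2.trans ?_).trans_lt hn
    have h3 : (n : ℝ) ≤ i.2 := by exact_mod_cast hi.2
    exact one_div_le_one_div_of_le (by positivity) (by linarith)
  have hcomm : ∀ b : H →L[ℂ] H, (∀ i, (a i : H →L[ℂ] H) * b = b * (a i : H →L[ℂ] H)) →
      S * b = b * S := by
    intro b hb
    ext1 y
    refine ext_inner_left ℂ fun x => ?_
    have h1 := hS x (b y)
    have h2 := hS (star b x) y
    have h3 : ∀ i, ⟪x, ((a i : BB M p hp) : H →L[ℂ] H) (b y)⟫_ℂ =
        ⟪star b x, ((a i : BB M p hp) : H →L[ℂ] H) y⟫_ℂ := by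
      intro i
      rw [ContinuousLinearMap.star_eq_adjoint, ContinuousLinearMap.adjoint_inner_left]
      have := congrArg (fun f : H →L[ℂ] H => f y) (hb i)
      simp only [mul_apply_eq_comp] at this
      rw [this]
    simp_rw [h3] at h1
    have h4 := tendsto_nhds_unique h1 h2
    rw [ContinuousLinearMap.star_eq_adjoint, ContinuousLinearMap.adjoint_inner_left] at h4
    exact h4
  have hSM : S ∈ M := by
    have h1 : S ∈ Set.centralizer (Set.centralizer (M : Set (H →L[ℂ] H))) := by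
      intro b hb
      refine (hcomm b fun i => ?_).symm
      exact hb _ (a i).2.1
    rwa [M.centralizer_centralizer] at h1
  have hSB : S ∈ BB M p hp := ⟨hSM, hcomm p fun i => (a i).2.2⟩
  refine ⟨⟨S, hSB⟩, ?_⟩
  ext1 y
  refine ext_inner_left ℂ fun x => ?_
  have h1 : Tendsto (fun i => ⟪x, piB M p hp k Ω (a i) y⟫_ℂ) 𝒰 (𝓝 ⟪x, T y⟫_ℂ) :=
    tendsto_const_nhds.inner (hconv y)
  have h2 : ∀ c : BB M p hp, ⟪x, piB M p hp k Ω c y⟫_ℂ =
      ∑ j, ⟪(x : HH (Fin k) H) j, (c : H →L[ℂ] H) ((y : HH (Fin k) H) j)⟫_ℂ := by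
    intro c
    have h3 : piB M p hp k Ω c y = lmap M p k Ω c y := rfl
    rw [h3, Submodule.coe_inner, lmap_apply hp c.2, inner_dg]
  simp_rw [h2] at h1
  have h4 : Tendsto (fun i => ∑ j, ⟪(x : HH (Fin k) H) j,
      ((a i : BB M p hp) : H →L[ℂ] H) ((y : HH (Fin k) H) j)⟫_ℂ) 𝒰
      (𝓝 (∑ j, ⟪(x : HH (Fin k) H) j, S ((y : HH (Fin k) H) j)⟫_ℂ)) :=
    tendsto_finset_sum _ fun j _ => hS _ _
  rw [h2]
  exact tendsto_nhds_unique h4 h1

theorem cc_star {L : Type} [NormedAddCommGroup L] [InnerProductSpace ℂ L] [CompleteSpace L]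
    (X : Set (L →L[ℂ] L)) (hX : ∀ x ∈ X, star x ∈ X) {T : L →L[ℂ] L}
    (hT : T ∈ Set.centralizer (Set.centralizer X)) :
    star T ∈ Set.centralizer (Set.centralizer X) := by
  intro b hb
  have hb' : star b ∈ Set.centralizer X := by
    intro c hc
    have h1 := hb (star c) (hX c hc)
    have h2 := congrArg star h1
    rw [star_mul, star_mul, star_star] at h2
    exact h2.symm
  have h3 := hT (star b) hb'
  have h4 := congrArg star h3
  rw [star_mul, star_mul, star_star] at h4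
  exact h4.symm

theorem cc_comb {L : Type} [NormedAddCommGroup L] [InnerProductSpace ℂ L] [CompleteSpace L]
    (X : Set (L →L[ℂ] L)) {S T : L →L[ℂ] L} (c d : ℂ)
    (hS : S ∈ Set.centralizer (Set.centralizer X))
    (hT : T ∈ Set.centralizer (Set.centralizer X)) :
    c • S + d • T ∈ Set.centralizer (Set.centralizer X) := by
  intro b hb
  rw [mul_add, add_mul, mul_smul_comm, mul_smul_comm, smul_mul_assoc, smul_mul_assoc, hS b hb,
    hT b hb]

theorem dec {L : Type} [NormedAddCommGroup L] [InnerProductSpace ℂ L] [CompleteSpace L]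
    (T : L →L[ℂ] L) : (1 / 2 : ℂ) • ((1 : ℂ) • T + (1 : ℂ) • star T) +
      (-Complex.I / 2 : ℂ) • (Complex.I • T + (-Complex.I) • star T) = T := by
  simp only [smul_add, smul_smul]
  have e1 : -Complex.I / 2 * Complex.I = 1 / 2 := by
    have := Complex.I_mul_I
    linear_combination (-1 / 2 : ℂ) * this
  have e2 : -Complex.I / 2 * -Complex.I = -(1 / 2) := by
    have := Complex.I_mul_I
    linear_combination (1 / 2 : ℂ) * this
  rw [e1, e2]
  module

theorem sa1 {L : Type} [NormedAddCommGroup L] [InnerProductSpace ℂ L] [CompleteSpace L]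
    (T : L →L[ℂ] L) : IsSelfAdjoint ((1 : ℂ) • T + (1 : ℂ) • star T) := by
  rw [one_smul, one_smul, IsSelfAdjoint, star_add, star_star, add_comm]

theorem sa2 {L : Type} [NormedAddCommGroup L] [InnerProductSpace ℂ L] [CompleteSpace L]
    (T : L →L[ℂ] L) : IsSelfAdjoint (Complex.I • T + (-Complex.I) • star T) := by
  rw [IsSelfAdjoint, star_add, star_smul, star_smul, star_star]
  simp [add_comm]

/-- constructor -/
def mkVN {L : Type} [NormedAddCommGroup L] [InnerProductSpace ℂ L] [CompleteSpace L]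
    (S : StarSubalgebra ℂ (L →L[ℂ] L))
    (h : Set.centralizer (Set.centralizer (S : Set (L →L[ℂ] L))) = S) : VonNeumannAlgebra L where
  toStarSubalgebra := S
  centralizer_centralizer' := h

theorem mem_mkVN {L : Type} [NormedAddCommGroup L] [InnerProductSpace ℂ L] [CompleteSpace L]
    (S : StarSubalgebra ℂ (L →L[ℂ] L))
    (h : Set.centralizer (Set.centralizer (S : Set (L →L[ℂ] L))) = S) (T : L →L[ℂ] L) :
    T ∈ mkVN S h ↔ T ∈ S := Iff.rfl

theorem range_coe {L : Type} [NormedAddCommGroup L] [InnerProductSpace ℂ L] [CompleteSpace L]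
    (B : StarSubalgebra ℂ (H →L[ℂ] H)) (φ : B →⋆ₐ[ℂ] (L →L[ℂ] L)) :
    ((StarAlgHom.range φ : StarSubalgebra ℂ (L →L[ℂ] L)) : Set (L →L[ℂ] L)) = Set.range φ := by
  ext T
  exact Iff.rfl

theorem dc (M : VonNeumannAlgebra H) (p : H →L[ℂ] H) (hpM : p ∈ M) (hp : IsPr p) (k : ℕ)
    (Ω : HH (Fin k) H) : Set.centralizer (Set.centralizer (Set.range (piB M p hp k Ω))) =
      Set.range (piB M p hp k Ω) := by
  refine Set.Subset.antisymm ?_ Set.subset_centralizer_centralizer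
  intro T hT
  have hX : ∀ x ∈ Set.range (piB M p hp k Ω), star x ∈ Set.range (piB M p hp k Ω) := by
    rintro _ ⟨c, rfl⟩
    exact ⟨star c, map_star _ _⟩
  have hstar := cc_star _ hX hT
  obtain ⟨a, ha⟩ := sa_mem M p hp hpM k Ω _ (sa1 T) (cc_comb _ _ _ hT hstar)
  obtain ⟨b, hb⟩ := sa_mem M p hp hpM k Ω _ (sa2 T) (cc_comb _ _ _ hT hstar)
  refine ⟨(1 / 2 : ℂ) • a + (-Complex.I / 2 : ℂ) • b, ?_⟩
  rw [map_add, map_smul, map_smul, ha, hb]
  exact dec T

/-- the von Neumann algebra on the cyclic subspace -/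
def NN (M : VonNeumannAlgebra H) (p : H →L[ℂ] H) (hpM : p ∈ M) (hp : IsPr p) (k : ℕ)
    (Ω : HH (Fin k) H) : VonNeumannAlgebra (LL M p k Ω) :=
  mkVN (piB M p hp k Ω).range (by
    rw [range_coe]
    exact dc M p hpM hp k Ω)

end basic

end Gbicaux

open Gbicaux in
theorem prove_G_bic : G_bic := by
  intro H _ _ _ M p hpM hp k Ω hΩ hsep
  have hwmem : Ω ∈ LL M p k Ω := by
    have h1 : dg k p Ω ∈ LL M p k Ω := VV_le (mem_VV (p_cnr hpM hp))
    rwa [hΩ] at h1
  have hlw : ∀ a ∈ Cnr M p, ((lmap M p k Ω a ⟨Ω, hwmem⟩ : LL M p k Ω) : HH (Fin k) H) =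
      dg k a Ω := fun a ha => lmap_apply hp (cnr_BB hp ha) ⟨Ω, hwmem⟩
  refine ⟨LL M p k Ω, inferInstance, inferInstance, inferInstance, lmap M p k Ω, ⟨Ω, hwmem⟩,
    NN M p hpM hp k Ω, ?_, ?_, lmap_p hpM hp, ?_, ?_, ?_, ?_⟩
  · intro a ha c hc
    exact lmap_mul hp (cnr_BB hp ha) (cnr_BB hp hc)
  · intro a ha
    exact lmap_star hp (cnr_BB hp ha)
  · intro a ha
    have : IsClosed (CC M p hp : Set (H →L[ℂ] H)) := isClosed_CC M p hp
    have hinj : Function.Injective (phiC M p hp k Ω) := by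
      rw [injective_iff_map_eq_zero]
      intro b hb
      have h1 : lmap M p k Ω b = 0 := hb
      have h2 : dg k (b : H →L[ℂ] H) Ω = 0 := by
        rw [← hlw b b.2, h1]
        rfl
      exact Subtype.ext (hsep b b.2 h2)
    exact NonUnitalStarAlgHom.norm_map (phiC M p hp k Ω) hinj (⟨a, ha⟩ : CC M p hp)
  · intro a ha
    rw [← hlw a ha]
    rfl
  · intro T
    exact range_piB M p hpM hp k Ω T
  · intro x hx
    have h1 : ∀ y ∈ VV M p k Ω, ⟪y, (x : HH (Fin k) H)⟫_ℂ = 0 := by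
      intro y hy
      obtain ⟨b, hb, rfl⟩ := Submodule.mem_map.1 hy
      have h2 := hx b hb
      rw [Submodule.coe_inner, hlw b hb] at h2
      exact h2
    have h3 : (x : HH (Fin k) H) ∈ closure (VV M p k Ω : Set (HH (Fin k) H)) := by
      rw [← Submodule.topologicalClosure_coe]
      exact x.2
    have h4 : IsClosed {y : HH (Fin k) H | ⟪y, (x : HH (Fin k) H)⟫_ℂ = 0} :=
      isClosed_eq (continuous_id.inner continuous_const) continuous_const
    have h5 : ⟪(x : HH (Fin k) H), (x : HH (Fin k) H)⟫_ℂ = 0 :=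
      closure_minimal (fun y hy => h1 y hy) h4 h3
    rw [inner_self_eq_zero] at h5
    exact Subtype.ext h5

end H68R2.BP
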